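import Mathlib
import Pool.Agent.H120R2.CliqueDefs

/-! Counting: from ordered quadruples to Turán densities. -/

set_option autoImplicit false
open Finset Filter Topology
open scoped Classical

namespace Pool.Agent.W846.Dens

open Pool.Agent.H120R2.Clique

section
variable {V : Type}

/-- indicator of the non-edges -/
noncomputable def non (G : Finset (Finset V)) (a b c d : V) : ℕ :=
  if ({a, b, c, d} : Finset V) ∈ G then 0 else 1

theorem non_bit (G : Finset (Finset V)) (a b c d : V) : non G a b c d = 0 ∨ non G a b c d = 1 := by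
  unfold non; split_ifs <;> simp

theorem non_h2134 (G : Finset (Finset V)) (x y z w : V) : non G y x z w = non G x y z w := by
  unfold non; rw [Finset.insert_comm]

theorem non_h1324 (G : Finset (Finset V)) (x y z w : V) : non G x z y w = non G x y z w := by
  unfold non; rw [Finset.insert_comm z y]

theorem non_h1243 (G : Finset (Finset V)) (x y z w : V) : non G x y w z = non G x y z w := by
  unfold non; rw [Finset.pair_comm]

theorem non_zero {G : Finset (Finset V)} {a b c d : V} (h : non G a b c d = 0) :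
    ({a, b, c, d} : Finset V) ∈ G := by
  unfold non at h
  split_ifs at h with h'
  exact h'

theorem card_four {a b c d : V} (h : ({a, b, c, d} : Finset V).card = 4) :
    a ≠ b ∧ a ≠ c ∧ a ≠ d ∧ b ≠ c ∧ b ≠ d ∧ c ≠ d := by
  have key : ∀ x y z : V, ({x, y, z} : Finset V).card ≤ 3 := fun x y z => card_le_three
  refine ⟨?_, ?_, ?_, ?_, ?_, ?_⟩ <;> rintro rfl
  · have := key a c d
    have e : ({a, a, c, d} : Finset V) = {a, c, d} := by ext t; simp
    rw [e] at h; omega
  · have := key a b d
    have e : ({a, b, a, d} : Finset V) = {a, b, d} := by ext t; simp; tauto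
    rw [e] at h; omega
  · have := key a b c
    have e : ({a, b, c, a} : Finset V) = {a, b, c} := by ext t; simp; tauto
    rw [e] at h; omega
  · have := key a b d
    have e : ({a, b, b, d} : Finset V) = {a, b, d} := by ext t; simp
    rw [e] at h; omega
  · have := key a b c
    have e : ({a, b, c, b} : Finset V) = {a, b, c} := by ext t; simp; tauto
    rw [e] at h; omega
  · have := key a b c
    have e : ({a, b, c, c} : Finset V) = {a, b, c} := by ext t; simp
    rw [e] at h; omega

theorem er (v x y z w : V) (h1 : v ≠ x) (h2 : v ≠ y) (h3 : v ≠ z) (h4 : v ≠ w) :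
    ({v, x, y, z, w} : Finset V).erase v = {x, y, z, w} :=
  erase_insert (by simp [h1, h2, h3, h4])

theorem ins2 (v p b c d : V) : ({p, v, b, c, d} : Finset V) = {v, p, b, c, d} :=
  Finset.insert_comm p v _

theorem ins3 (v p a c d : V) : ({p, a, v, c, d} : Finset V) = {v, p, a, c, d} := by
  rw [Finset.insert_comm a v, Finset.insert_comm p v]

theorem ins4 (v p a b d : V) : ({p, a, b, v, d} : Finset V) = {v, p, a, b, d} := by
  rw [Finset.insert_comm b v, Finset.insert_comm a v, Finset.insert_comm p v]

theorem ins5 (v p a b c : V) : ({p, a, b, c, v} : Finset V) = {v, p, a, b, c} := by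
  rw [Finset.pair_comm c v, Finset.insert_comm b v, Finset.insert_comm a v, Finset.insert_comm p v]

/-- the covering condition -/
theorem cover {G : Finset (Finset V)} (h4 : ∀ A ∈ G, A.card = 4)
    (hK : ¬ ∃ A : Finset V, A.card = 5 ∧ A.powersetCard 4 ⊆ G) (p a b c d : V) :
    1 ≤ non G p a b c + non G p a b d + non G p a c d + non G p b c d + non G a b c d := by
  by_contra hcon
  apply hK
  have z1 : non G p a b c = 0 := by omega
  have z2 : non G p a b d = 0 := by omega
  have z3 : non G p a c d = 0 := by omega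
  have z4 : non G p b c d = 0 := by omega
  have z5 : non G a b c d = 0 := by omega
  have m1 := non_zero z1
  have m2 := non_zero z2
  have m3 := non_zero z3
  have m4 := non_zero z4
  have m5 := non_zero z5
  obtain ⟨pa, pb, pc, ab, ac, bc⟩ := card_four (h4 _ m1)
  obtain ⟨-, -, pd, -, ad, bd⟩ := card_four (h4 _ m2)
  obtain ⟨-, -, -, -, -, cd⟩ := card_four (h4 _ m5)
  refine ⟨{p, a, b, c, d}, ?_, ?_⟩
  · rw [card_insert_of_notMem, card_insert_of_notMem, card_insert_of_notMem,
      card_insert_of_notMem, card_singleton] <;> simp [*]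
  · intro S hS
    rw [mem_powersetCard] at hS
    obtain ⟨hs, hc⟩ := hS
    have h5 : ({p, a, b, c, d} : Finset V).card = 5 := by
      rw [card_insert_of_notMem, card_insert_of_notMem, card_insert_of_notMem,
        card_insert_of_notMem, card_singleton] <;> simp [*]
    have hd : (({p, a, b, c, d} : Finset V) \ S).card = 1 := by
      rw [card_sdiff_of_subset hs]; omega
    obtain ⟨v, hv⟩ := card_eq_one.mp hd
    have hvm : v ∈ ({p, a, b, c, d} : Finset V) \ S := by rw [hv]; simp
    have hS' : S = ({p, a, b, c, d} : Finset V).erase v := by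
      ext t
      rw [mem_erase]
      constructor
      · intro ht
        refine ⟨?_, hs ht⟩
        rintro rfl
        exact (mem_sdiff.mp hvm).2 ht
      · rintro ⟨h1, h2⟩
        by_contra h3
        have : t ∈ ({p, a, b, c, d} : Finset V) \ S := mem_sdiff.mpr ⟨h2, h3⟩
        rw [hv, mem_singleton] at this
        exact h1 this
    have hv2 := (mem_sdiff.mp hvm).1
    simp only [mem_insert, mem_singleton] at hv2
    rw [hS']
    rcases hv2 with rfl | rfl | rfl | rfl | rfl
    · rw [er v a b c d pa pb pc pd]; exact m5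
    · rw [ins2 v p b c d, er v p b c d pa.symm ab ac ad]; exact m4
    · rw [ins3 v p a c d, er v p a c d pb.symm ab.symm bc bd]; exact m3
    · rw [ins4 v p a b d, er v p a b d pc.symm ac.symm bc.symm cd]; exact m2
    · rw [ins5 v p a b c, er v p a b c pd.symm ad.symm bd.symm cd.symm]; exact m1

variable [Fintype V]

/-- every edge gives at least 24 ordered quadruples -/
theorem orders_le (G : Finset (Finset V)) (h4 : ∀ A ∈ G, A.card = 4) :
    24 * G.card ≤ (univ.filter fun x : Fin 4 → V => ({x 0, x 1, x 2, x 3} : Finset V) ∈ G).card := by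
  have h1 : ∀ e ∈ G, 24 ≤ ((univ.filter fun x : Fin 4 → V => ({x 0, x 1, x 2, x 3} : Finset V) ∈ G).filter
      fun x => ({x 0, x 1, x 2, x 3} : Finset V) = e).card := by
    intro e he
    have hc : Fintype.card (Fin 4 ↪ e) = 24 := by
      rw [Fintype.card_embedding_eq, Fintype.card_coe, h4 e he, Fintype.card_fin]
      rfl
    rw [← hc, ← Finset.card_univ]
    refine Finset.card_le_card_of_injOn (fun f i => (f i : V)) ?_ ?_
    · intro f _
      have hx : ({((f 0 : e) : V), ((f 1 : e) : V), ((f 2 : e) : V), ((f 3 : e) : V)} : Finset V) = e := by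
        have himg : (univ.map (f.trans (Function.Embedding.subtype (· ∈ e)))) = e := by
          apply Finset.eq_of_subset_of_card_le
          · intro t ht
            rw [Finset.mem_map] at ht
            obtain ⟨i, -, rfl⟩ := ht
            exact (f i).2
          · rw [card_map, card_univ, Fintype.card_fin, h4 e he]
        refine Eq.trans ?_ himg
        ext t
        simp only [mem_insert, mem_singleton, Finset.mem_map, mem_univ, true_and, Fin.exists_fin_succ,
          Function.Embedding.trans_apply, Function.Embedding.subtype_apply]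
        constructor
        · rintro (rfl | rfl | rfl | rfl)
          · exact Or.inl rfl
          · exact Or.inr (Or.inl rfl)
          · exact Or.inr (Or.inr (Or.inl rfl))
          · exact Or.inr (Or.inr (Or.inr (Or.inl rfl)))
        · intro h
          rcases h with h | h | h | h | h
          · exact Or.inl h.symm
          · exact Or.inr (Or.inl h.symm)
          · exact Or.inr (Or.inr (Or.inl h.symm))
          · exact Or.inr (Or.inr (Or.inr h.symm))
          · exact absurd h (by rintro ⟨i, -⟩; exact i.elim0)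
      simp only [coe_filter, mem_filter, mem_univ, true_and, Set.mem_ofPred_eq]
      exact ⟨by rw [hx]; exact he, hx⟩
    · intro f _ g _ hfg
      apply DFunLike.ext
      intro i
      exact Subtype.ext (congrFun hfg i)
  rw [Finset.card_eq_sum_card_fiberwise (f := fun x : Fin 4 → V => ({x 0, x 1, x 2, x 3} : Finset V))
    (t := G) (by intro x hx; simpa using hx)]
  calc 24 * G.card = ∑ e ∈ G, 24 := by rw [sum_const, smul_eq_mul, mul_comm]
    _ ≤ _ := sum_le_sum h1

def e4 (V : Type) : (Fin 4 → V) ≃ V × V × V × V where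
  toFun x := (x 0, x 1, x 2, x 3)
  invFun p := ![p.1, p.2.1, p.2.2.1, p.2.2.2]
  left_inv x := by funext i; fin_cases i <;> rfl
  right_inv p := rfl

theorem conv4 (G : V → V → V → V → ℤ) :
    ∑ x : Fin 4 → V, G (x 0) (x 1) (x 2) (x 3)
      = ∑ a, ∑ b, ∑ c, ∑ d, G a b c d := by
  rw [← Equiv.sum_comp (e4 V).symm]
  simp only [Fintype.sum_prod_type]
  rfl

/-- the number of ordered quadruples that are not edges -/
theorem non_sum (G : Finset (Finset V)) (h4 : ∀ A ∈ G, A.card = 4) :
    ∑ a, ∑ b, ∑ c, ∑ d, (non G a b c d : ℤ) + 24 * (G.card : ℤ) ≤ (Fintype.card V : ℤ) ^ 4 := by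
  have h1 := orders_le G h4
  have h2 : ∀ x : Fin 4 → V, (non G (x 0) (x 1) (x 2) (x 3) : ℤ)
      + (if ({x 0, x 1, x 2, x 3} : Finset V) ∈ G then 1 else 0) = 1 := by
    intro x; unfold non; split_ifs <;> simp
  have h3 : ∑ x : Fin 4 → V, ((non G (x 0) (x 1) (x 2) (x 3) : ℤ)
      + (if ({x 0, x 1, x 2, x 3} : Finset V) ∈ G then 1 else 0)) = (Fintype.card V : ℤ) ^ 4 := by
    rw [sum_congr rfl fun x _ => h2 x, sum_const, card_univ, Fintype.card_fun, Fintype.card_fin]
    simp
  rw [sum_add_distrib, conv4 (fun a b c d => (non G a b c d : ℤ))] at h3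
  have h4 : ∑ x : Fin 4 → V, (if ({x 0, x 1, x 2, x 3} : Finset V) ∈ G then (1 : ℤ) else 0)
      = ((univ.filter fun x : Fin 4 → V => ({x 0, x 1, x 2, x 3} : Finset V) ∈ G).card : ℤ) := by
    rw [card_filter]; push_cast; rfl
  rw [h4] at h3
  have h5 : (24 * G.card : ℤ) ≤ ((univ.filter fun x : Fin 4 → V => ({x 0, x 1, x 2, x 3} : Finset V) ∈ G).card : ℤ) := by
    exact_mod_cast h1
  linarith

end

/-- `24 C(n,4) / n^4` tends to one -/
theorem choose_four_tendsto :
    Tendsto (fun n : ℕ => (24 * (n.choose 4 : ℝ)) / (n : ℝ) ^ 4) atTop (𝓝 1) := by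
  have h1 : Tendsto (fun n : ℕ => (1 - 1 * (n : ℝ)⁻¹) * (1 - 2 * (n : ℝ)⁻¹) * (1 - 3 * (n : ℝ)⁻¹)) atTop
      (𝓝 ((1 - 1 * 0) * (1 - 2 * 0) * (1 - 3 * 0))) := by
    have h := tendsto_inv_atTop_nhds_zero_nat (𝕜 := ℝ)
    exact ((tendsto_const_nhds.sub (h.const_mul 1)).mul (tendsto_const_nhds.sub (h.const_mul 2))).mul
      (tendsto_const_nhds.sub (h.const_mul 3))
  have e : ((1 - 1 * 0) * (1 - 2 * 0) * (1 - 3 * 0) : ℝ) = 1 := by norm_num
  rw [e] at h1
  refine h1.congr' ?_
  filter_upwards [eventually_ge_atTop 4] with n hn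
  have hn' : (n : ℝ) ≠ 0 := by positivity
  have hc : 24 * (n.choose 4 : ℝ) = (n : ℝ) * (n - 1) * (n - 2) * (n - 3) := by
    have h2 : n.descFactorial 4 = 24 * n.choose 4 := by
      rw [Nat.descFactorial_eq_factorial_mul_choose]; rfl
    have h3 : ((n.descFactorial 4 : ℕ) : ℝ) = (n : ℝ) * (n - 1) * (n - 2) * (n - 3) := by
      obtain ⟨m, rfl⟩ := Nat.exists_eq_add_of_le hn
      simp only [Nat.descFactorial, Nat.add_sub_cancel_left]
      have a1 : 4 + m - 0 = m + 4 := by omega
      have a2 : 4 + m - 1 = m + 3 := by omega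
      have a3 : 4 + m - 2 = m + 2 := by omega
      have a4 : 4 + m - 3 = m + 1 := by omega
      rw [a1, a2, a3, a4]
      push_cast
      ring
    rw [← h3, h2]; push_cast; ring
  rw [hc]
  field_simp

/-- upper bounds for the Turán density from upper bounds for the Turán function -/
theorem density_le {y : ℝ} (h : ∀ n : ℕ, 0 < n → 24 * (ex n 4 5 : ℝ) ≤ y * (n : ℝ) ^ 4) :
    turanDensity 4 5 ≤ y := by
  have h1 := (ratio_tendsto 4 5).mul choose_four_tendsto
  rw [mul_one] at h1
  refine le_of_tendsto h1 ?_
  filter_upwards [eventually_ge_atTop 4] with n hn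
  have hn' : (0 : ℝ) < (n : ℝ) ^ 4 := by positivity
  have hc : (0 : ℝ) < (n.choose 4 : ℝ) := by exact_mod_cast Nat.choose_pos hn
  have e : (ex n 4 5 : ℝ) / (n.choose 4 : ℝ) * (24 * (n.choose 4 : ℝ) / (n : ℝ) ^ 4)
      = 24 * (ex n 4 5 : ℝ) / (n : ℝ) ^ 4 := by
    field_simp
  rw [e, div_le_iff₀ hn']
  exact h n (by omega)

end Pool.Agent.W846.Dens
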