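import Pool.Agent.H122R2.N6.Util

/-! Reduction of the structure on five vertices to representatives by adjacent transpositions. -/

set_option autoImplicit false
set_option maxRecDepth 100000

namespace Pool.Agent.W846.K54

open Pool.Agent.H122R2.N6

def TB : ℕ := 0x4231323332333323111102331233311142022223013233222020102222112222021241322223132221212211212222221211122202221111221122222222112222333332220303234000100340303333102000031033303342303020423333233231323222333323110111000101123122220200022202322220102022201022223322133332132301110131311333333231223331323323101110100011323101210113111331130231023331213323122212221111121122212221012101221111130303131111314133333333111331100030001300033140130031011033300114031131111330013041031101133113323331331113111131103001111111113323332331133111323332333113141222320423232320202220202122220002102322322323212111112221222211113433303314131111121222221211222342030322432234004030310043033233123333203323342310003420123330210403222232033231233332223323303012120300222322322420302224222223132202130322301110110131031331202222101332433231322223333323323333240233332330233021011102333131131402022223223231222021102222112222222211221111111333031111222222430022034232343122230431232222112222031302323023103022102331133121302011133231323432303124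

def tg (b012 b013 b023 b123 b014 b024 b124 b034 b134 b234 : ℕ) : ℕ := Nat.mod (Nat.shiftRight TB (Nat.mul 4 (Nat.add b012 (Nat.add (Nat.mul 2 b013) (Nat.add (Nat.mul 4 b023) (Nat.add (Nat.mul 8 b123) (Nat.add (Nat.mul 16 b014) (Nat.add (Nat.mul 32 b024) (Nat.add (Nat.mul 64 b124) (Nat.add (Nat.mul 128 b034) (Nat.add (Nat.mul 256 b134) (Nat.mul 512 b234)))))))))))) 16

def walk (n : ℕ) : ℕ → ℕ → ℕ → ℕ → ℕ → ℕ → ℕ → ℕ → ℕ → ℕ → Bool :=
  Nat.rec (fun b012 b013 b023 b123 b014 b024 b124 b034 b134 b234 => Nat.beq (tg b012 b013 b023 b123 b014 b024 b124 b034 b134 b234) 4)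
    (fun _ ih b012 b013 b023 b123 b014 b024 b124 b034 b134 b234 => cond (Nat.beq (tg b012 b013 b023 b123 b014 b024 b124 b034 b134 b234) 4) true
      (cond (Nat.beq (tg b012 b013 b023 b123 b014 b024 b124 b034 b134 b234) 0) (ih b012 b013 b123 b023 b014 b124 b024 b134 b034 b234)
      (cond (Nat.beq (tg b012 b013 b023 b123 b014 b024 b124 b034 b134 b234) 1) (ih b012 b023 b013 b123 b024 b014 b124 b034 b234 b134)
      (cond (Nat.beq (tg b012 b013 b023 b123 b014 b024 b124 b034 b134 b234) 2) (ih b013 b012 b023 b123 b014 b034 b134 b024 b124 b234)
      (cond (Nat.beq (tg b012 b013 b023 b123 b014 b024 b124 b034 b134 b234) 3) (ih b012 b014 b024 b124 b013 b023 b123 b034 b134 b234) false))))) n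

theorem walk_all : (B2 fun b012 => B2 fun b013 => B2 fun b023 => B2 fun b123 => B2 fun b014 => B2 fun b024 => B2 fun b124 => B2 fun b034 => B2 fun b134 => B2 fun b234 => walk 6 b012 b013 b023 b123 b014 b024 b124 b034 b134 b234) = true := by decide +kernel

/-- the leaf inequality for all extensions of a given structure on the first five vertices -/
def chk (q4 : ℕ → ℕ → ℕ → ℕ) (q2 : ℕ → ℕ → ℕ) (C : ℕ) (b012 b013 b023 b123 b014 b024 b124 b034 b134 b234 : ℕ) : Bool :=
  B2 fun b015 => B2 fun b025 => B2 fun b125 => B2 fun b035 => B2 fun b135 => B2 fun b235 => B2 fun b045 => B2 fun b145 => B2 fun b245 => B2 fun b345 => Nat.ble (Nat.add (leaf4 q4 b012 b013 b023 b123 b014 b024 b124 b034 b134 b234 b015 b025 b125 b035 b135 b235 b045 b145 b245 b345) (leaf2 q2 b012 b013 b023 b123 b014 b024 b124 b034 b134 b234 b015 b025 b125 b035 b135 b235 b045 b145 b245 b345)) C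

end Pool.Agent.W846.K54
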