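import Pool.Agent.W846.K54.Fin

/-! From 3-graphs to 4-graphs: the links of the vertices. -/

set_option autoImplicit false
set_option maxRecDepth 100000
set_option maxHeartbeats 4000000
open Finset

namespace Pool.Agent.W846.K54

open Pool.Agent.H122R2.N6 hiding TB tg walk walk_all chk chk_sound rep_good walk_good leaf_all

/-- symmetric 0/1-valued functions of four vertices -/
structure Sy4 {V : Type} (F : V → V → V → V → ℕ) : Prop where
  b : ∀ x y z w, Bt (F x y z w)
  h2134 : ∀ x y z w, F y x z w = F x y z w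
  h1324 : ∀ x y z w, F x z y w = F x y z w
  h1243 : ∀ x y z w, F x y w z = F x y z w

section
variable {V : Type} {F : V → V → V → V → ℕ}

theorem Sy4.link (h : Sy4 F) (p : V) : Sy (F p) where
  b := h.b p
  h213 x y z := h.h1324 p x y z
  h132 x y z := h.h1243 p x y z

theorem pop4_cd4 {x y z w : ℕ} (hx : Bt x) (hy : Bt y) (hz : Bt z) (hw : Bt w) :
    pop4 (cd4 x y z w) = x + y + z + w := by
  rcases hx with rfl | rfl <;> rcases hy with rfl | rfl <;> rcases hz with rfl | rfl <;>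
    rcases hw with rfl | rfl <;> rfl

/-- the weight of a rooted quadruple -/
def ta (F : V → V → V → V → ℕ) (p a b c d : V) : ℤ :=
  wt (pop4 (cd4 (F p a b c) (F p a b d) (F p a c d) (F p b c d)))

theorem ta_eq (h : Sy4 F) (p a b c d : V) :
    ta F p a b c d = wt (F p a b c + F p a b d + F p a c d + F p b c d) := by
  unfold ta
  rw [pop4_cd4 (h.b _ _ _ _) (h.b _ _ _ _) (h.b _ _ _ _) (h.b _ _ _ _)]

theorem wt_sum {x y z u v : ℕ} (hx : Bt x) (hy : Bt y) (hz : Bt z) (hu : Bt u) (hv : Bt v)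
    (h : 1 ≤ x + y + z + u + v) :
    -18764998440000 * ((x : ℤ) + y + z + u + v) ≤ wt (x + y + z + u) + wt (x + y + z + v)
      + wt (x + y + u + v) + wt (x + z + u + v) + wt (y + z + u + v) := by
  rcases hx with rfl | rfl <;> rcases hy with rfl | rfl <;> rcases hz with rfl | rfl <;>
    rcases hu with rfl | rfl <;> rcases hv with rfl | rfl <;> simp [wt] at h ⊢

theorem ta_sum (h : Sy4 F) (p a b c d : V)
    (hc : 1 ≤ F p a b c + F p a b d + F p a c d + F p b c d + F a b c d) :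
    -18764998440000 * ((F p a b c : ℤ) + F p a b d + F p a c d + F p b c d + F a b c d) ≤
      ta F p a b c d + ta F a p b c d + ta F b p a c d + ta F c p a b d + ta F d p a b c := by
  have h1 := wt_sum (h.b p a b c) (h.b p a b d) (h.b p a c d) (h.b p b c d) (h.b a b c d) hc
  rw [ta_eq h, ta_eq h, ta_eq h, ta_eq h, ta_eq h]
  have e1 : F a p b c = F p a b c := h.h2134 _ _ _ _
  have e2 : F a p b d = F p a b d := h.h2134 _ _ _ _
  have e3 : F a p c d = F p a c d := h.h2134 _ _ _ _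
  have e4 : F b p a c = F p a b c := by rw [h.h2134 p b a c, h.h1324 p a b c]
  have e5 : F b p a d = F p a b d := by rw [h.h2134 p b a d, h.h1324 p a b d]
  have e6 : F b p c d = F p b c d := h.h2134 _ _ _ _
  have e7 : F b a c d = F a b c d := h.h2134 _ _ _ _
  have e8 : F c p a b = F p a b c := by rw [h.h2134 p c a b, h.h1324 p a c b, h.h1243 p a b c]
  have e9 : F c p a d = F p a c d := by rw [h.h2134 p c a d, h.h1324 p a c d]
  have e10 : F c p b d = F p b c d := by rw [h.h2134 p c b d, h.h1324 p b c d]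
  have e11 : F c a b d = F a b c d := by rw [h.h2134 a c b d, h.h1324 a b c d]
  have e12 : F d p a b = F p a b d := by rw [h.h2134 p d a b, h.h1324 p a d b, h.h1243 p a b d]
  have e13 : F d p a c = F p a c d := by rw [h.h2134 p d a c, h.h1324 p a d c, h.h1243 p a c d]
  have e14 : F d p b c = F p b c d := by rw [h.h2134 p d b c, h.h1324 p b d c, h.h1243 p b c d]
  have e15 : F d a b c = F a b c d := by rw [h.h2134 a d b c, h.h1324 a b d c, h.h1243 a b c d]
  rw [e1, e2, e3, e4, e5, e6, e7, e8, e9, e10, e11, e12, e13, e14, e15]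
  have f1 : F p a b c + F p a b d + F p b c d + F a b c d = F p a b c + F p a b d + F p b c d + F a b c d := rfl
  linarith

variable [Fintype V]

theorem psum5 (G : V → V → V → V → V → ℤ) (g : Fin 5 → Fin 5) (hg : Function.Bijective g) :
    ∑ x : Fin 5 → V, G (x (g 0)) (x (g 1)) (x (g 2)) (x (g 3)) (x (g 4))
      = ∑ x : Fin 5 → V, G (x 0) (x 1) (x 2) (x 3) (x 4) := by
  have h := Equiv.sum_comp (Equiv.arrowCongr (Equiv.ofBijective g hg).symm (Equiv.refl V))
    (fun x => G (x 0) (x 1) (x 2) (x 3) (x 4))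
  rw [← h]
  rfl

def e5 (V : Type) : (Fin 5 → V) ≃ V × V × V × V × V where
  toFun x := (x 0, x 1, x 2, x 3, x 4)
  invFun p := ![p.1, p.2.1, p.2.2.1, p.2.2.2.1, p.2.2.2.2]
  left_inv x := by funext i; fin_cases i <;> rfl
  right_inv p := rfl

theorem conv5 (G : V → V → V → V → V → ℤ) :
    ∑ x : Fin 5 → V, G (x 0) (x 1) (x 2) (x 3) (x 4)
      = ∑ a, ∑ b, ∑ c, ∑ d, ∑ e, G a b c d e := by
  rw [← Equiv.sum_comp (e5 V).symm]
  simp only [Fintype.sum_prod_type]
  rfl

/-- the number of ordered quadruples -/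
def Q4 (F : V → V → V → V → ℕ) : ℤ := ∑ a, ∑ b, ∑ c, ∑ d, (F a b c d : ℤ)

theorem four (h : Sy4 F) (hn : 0 < Fintype.card V)
    (hc : ∀ p a b c d : V, 1 ≤ F p a b c + F p a b d + F p a c d + F p b c d + F a b c d) :
    84841073582505 * (Fintype.card V : ℤ) ^ 4 ≤ 281474976600000 * Q4 F := by
  set n : ℤ := (Fintype.card V : ℤ) with hnn
  have hn' : (0 : ℤ) < n := by rw [hnn]; exact_mod_cast hn
  -- upper bound by the links
  have A : 15 * ∑ x : Fin 5 → V, ta F (x 0) (x 1) (x 2) (x 3) (x 4)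
      ≤ -84841073582505 * n ^ 5 := by
    rw [conv5 (fun p a b c d => ta F p a b c d), mul_sum]
    have e : ∀ p : V, 15 * ∑ a, ∑ b, ∑ c, ∑ d, ta F p a b c d ≤ -84841073582505 * n ^ 4 := by
      intro p
      exact avg (h.link p) hn
    calc ∑ p : V, 15 * ∑ a, ∑ b, ∑ c, ∑ d, ta F p a b c d
        ≤ ∑ p : V, -84841073582505 * n ^ 4 := sum_le_sum fun p _ => e p
      _ = -84841073582505 * n ^ 5 := by
          rw [sum_const, card_univ, nsmul_eq_mul, ← hnn]
          ring
  -- lower bound by the covering condition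
  have q5 : ∀ g : Fin 4 → Fin 5, ∀ g' : Fin 5 → Fin 5, (∀ i : Fin 4, g' i.succ = g i) →
      Function.Bijective g' →
      ∑ x : Fin 5 → V, (F (x (g 0)) (x (g 1)) (x (g 2)) (x (g 3)) : ℤ) = n * Q4 F := by
    intro g g' hg hb
    have h1 := psum5 (fun _ b c d e => (F b c d e : ℤ)) g' hb
    have h2 : ∑ x : Fin 5 → V, (F (x (g 0)) (x (g 1)) (x (g 2)) (x (g 3)) : ℤ) =
        ∑ x : Fin 5 → V, (F (x (g' 1)) (x (g' 2)) (x (g' 3)) (x (g' 4)) : ℤ) := by
      rw [← hg 0, ← hg 1, ← hg 2, ← hg 3]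
      rfl
    rw [h2, h1, conv5 (fun _ b c d e => (F b c d e : ℤ))]
    rw [sum_const, card_univ, nsmul_eq_mul]
    rfl
  have B : ∑ x : Fin 5 → V, (-18764998440000 * ((F (x 0) (x 1) (x 2) (x 3) : ℤ)
      + F (x 0) (x 1) (x 2) (x 4) + F (x 0) (x 1) (x 3) (x 4) + F (x 0) (x 2) (x 3) (x 4)
      + F (x 1) (x 2) (x 3) (x 4))) ≤
      ∑ x : Fin 5 → V, (ta F (x 0) (x 1) (x 2) (x 3) (x 4) + ta F (x 1) (x 0) (x 2) (x 3) (x 4)
        + ta F (x 2) (x 0) (x 1) (x 3) (x 4) + ta F (x 3) (x 0) (x 1) (x 2) (x 4)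
        + ta F (x 4) (x 0) (x 1) (x 2) (x 3)) :=
    sum_le_sum fun x _ => ta_sum h _ _ _ _ _ (hc _ _ _ _ _)
  have t1 := psum5 (fun p a b c d => ta F p a b c d) ![1, 0, 2, 3, 4]
    (Finite.injective_iff_bijective.mp (by decide))
  have t2 := psum5 (fun p a b c d => ta F p a b c d) ![2, 0, 1, 3, 4]
    (Finite.injective_iff_bijective.mp (by decide))
  have t3 := psum5 (fun p a b c d => ta F p a b c d) ![3, 0, 1, 2, 4]
    (Finite.injective_iff_bijective.mp (by decide))
  have t4 := psum5 (fun p a b c d => ta F p a b c d) ![4, 0, 1, 2, 3]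
    (Finite.injective_iff_bijective.mp (by decide))
  have s1 := q5 ![0, 1, 2, 3] ![4, 0, 1, 2, 3] (by decide)
    (Finite.injective_iff_bijective.mp (by decide))
  have s2 := q5 ![0, 1, 2, 4] ![3, 0, 1, 2, 4] (by decide)
    (Finite.injective_iff_bijective.mp (by decide))
  have s3 := q5 ![0, 1, 3, 4] ![2, 0, 1, 3, 4] (by decide)
    (Finite.injective_iff_bijective.mp (by decide))
  have s4 := q5 ![0, 2, 3, 4] ![1, 0, 2, 3, 4] (by decide)
    (Finite.injective_iff_bijective.mp (by decide))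
  have s5 := q5 ![1, 2, 3, 4] ![0, 1, 2, 3, 4] (by decide)
    (Finite.injective_iff_bijective.mp (by decide))
  rw [← mul_sum, sum_add_distrib, sum_add_distrib, sum_add_distrib, sum_add_distrib,
    sum_add_distrib, sum_add_distrib, sum_add_distrib, sum_add_distrib] at B
  change ∑ x : Fin 5 → V, ta F (x 1) (x 0) (x 2) (x 3) (x 4) = _ at t1
  change ∑ x : Fin 5 → V, ta F (x 2) (x 0) (x 1) (x 3) (x 4) = _ at t2
  change ∑ x : Fin 5 → V, ta F (x 3) (x 0) (x 1) (x 2) (x 4) = _ at t3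
  change ∑ x : Fin 5 → V, ta F (x 4) (x 0) (x 1) (x 2) (x 3) = _ at t4
  change ∑ x : Fin 5 → V, (F (x 0) (x 1) (x 2) (x 3) : ℤ) = _ at s1
  change ∑ x : Fin 5 → V, (F (x 0) (x 1) (x 2) (x 4) : ℤ) = _ at s2
  change ∑ x : Fin 5 → V, (F (x 0) (x 1) (x 3) (x 4) : ℤ) = _ at s3
  change ∑ x : Fin 5 → V, (F (x 0) (x 2) (x 3) (x 4) : ℤ) = _ at s4
  change ∑ x : Fin 5 → V, (F (x 1) (x 2) (x 3) (x 4) : ℤ) = _ at s5
  rw [t1, t2, t3, t4, s1, s2, s3, s4, s5] at B
  have h5 : n * (84841073582505 * n ^ 4) ≤ n * (281474976600000 * Q4 F) := by nlinarith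
  exact le_of_mul_le_mul_left h5 hn'

end
end Pool.Agent.W846.K54
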