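import Pool.Agent.W846.K54.Link
import Pool.Agent.W846.K54.Dens

/-! `π(K_5^4) ≤ 0.6986`. -/

set_option autoImplicit false
open Finset

namespace Pool.Agent.W846.K54

open Pool.Agent.H120R2.Clique Pool.Agent.W846.Dens

theorem non_sy {V : Type} (G : Finset (Finset V)) : Sy4 (non G) where
  b := non_bit G
  h2134 := non_h2134 G
  h1324 := non_h1324 G
  h1243 := non_h1243 G

theorem card_le {n : ℕ} (hn : 0 < n) (G : Finset (Finset (Fin n))) (h4 : ∀ A ∈ G, A.card = 4)
    (hK : ¬ HasClique G 4 5) : 24 * (G.card : ℝ) ≤ 0.6986 * (n : ℝ) ^ 4 := by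
  have h1 := four (non_sy G) (by rw [Fintype.card_fin]; exact hn) (cover h4 hK)
  have h2 := non_sum G h4
  rw [Fintype.card_fin] at h1 h2
  have h3 : 281474976600000 * (24 * (G.card : ℤ)) ≤ (281474976600000 - 84841073582505) * (n : ℤ) ^ 4 := by
    unfold Q4 at h1
    linarith
  have h4' : (281474976600000 : ℝ) * (24 * (G.card : ℝ)) ≤ (281474976600000 - 84841073582505) * (n : ℝ) ^ 4 := by
    exact_mod_cast h3
  have h5 : (0 : ℝ) ≤ (n : ℝ) ^ 4 := by positivity
  nlinarith

theorem ex_le {n : ℕ} (hn : 0 < n) : 24 * (ex n 4 5 : ℝ) ≤ 0.6986 * (n : ℝ) ^ 4 := by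
  classical
  by_contra hcon
  push Not at hcon
  have h0 : ∀ G ∈ ((((univ : Finset (Fin n)).powersetCard 4).powerset).filter
      (fun G => ¬ HasClique G 4 5)), 24 * (G.card : ℝ) ≤ 0.6986 * (n : ℝ) ^ 4 := by
    intro G hG
    rw [mem_filter, mem_powerset] at hG
    exact card_le hn G (fun A hA => (mem_powersetCard.mp (hG.1 hA)).2) hG.2
  have hne : ((((univ : Finset (Fin n)).powersetCard 4).powerset).filter
      (fun G => ¬ HasClique G 4 5)).Nonempty := by
    refine ⟨∅, ?_⟩
    rw [mem_filter, mem_powerset]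
    refine ⟨empty_subset _, ?_⟩
    rintro ⟨A, hA, hs⟩
    have : (A.powersetCard 4).Nonempty := powersetCard_nonempty.mpr (by omega)
    obtain ⟨x, hx⟩ := this
    exact absurd (hs hx) (by simp)
  obtain ⟨G, hG, he⟩ := Finset.exists_mem_eq_sup _ hne Finset.card
  have h1 := h0 G hG
  have h2 : ex n 4 5 = G.card := by
    unfold ex
    rw [← he]
  rw [h2] at hcon
  linarith

theorem main : turanDensity 4 5 ≤ 0.6986 := density_le fun n hn => ex_le hn

end Pool.Agent.W846.K54
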